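import Mathlib
import Pool.Agent.Helper336.AdjFin3

open MvPolynomial

namespace Pool.Agent.Results.MP_4583ef_ag.NotSubadditive

open Pool.Agent.Helper336.Adj

lemma mem_adj (k : Type) [Field k] [CharP k 2] (ω : k) (h0 : ω ≠ 0) (h1 : ω ≠ 1) :
    algebraMap (PA k) (RR k) (ww k) ∈ adj (RR k) (II k * JJ k ω) := by
  intro V _ _ _ _ _ _ _ _
  rw [← tsub_le_iff_left]
  refine le_iInf₂ fun b hb => ?_
  rw [tsub_le_iff_left]
  obtain ⟨a, ha, hab⟩ := mem_main k ω h0 h1 V (FractionRing (RR k)) b hb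
  exact le_trans (iInf₂_le a ha) hab

/-- Subadditivity of adjoint ideals fails in some regular local ring. -/
theorem result : ∃ (R : Type) (_ : CommRing R) (_ : IsDomain R) (_ : IsRegularLocalRing R)
    (I J : Ideal R), I ≠ ⊥ ∧ J ≠ ⊥ ∧ ¬ adj R (I * J) ≤ adj R I * adj R J := by
  classical
  let k := AlgebraicClosure (ZMod 2)
  haveI : CharP k 2 := charP_of_injective_algebraMap (algebraMap (ZMod 2) k).injective 2
  haveI : Infinite k := IsAlgClosed.instInfinite
  obtain ⟨ω, hω⟩ := Infinite.exists_notMem_finset ({0, 1} : Finset k)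
  have h0 : ω ≠ 0 := fun h => hω (by simp [h])
  have h1 : ω ≠ 1 := fun h => hω (by simp [h])
  have hne : ∀ p : PA k, p ≠ 0 → algebraMap (PA k) (RR k) p ≠ 0 := fun p hp h =>
    hp (PA_RR_injective k (by rw [h, map_zero]))
  refine ⟨RR k, inferInstance, inferInstance, inferInstance, II k, JJ k ω, ?_, ?_, ?_⟩
  · intro h
    have h2 : algebraMap (PA k) (RR k) (X 3 ^ 3) ∈ II k := Ideal.subset_span (by simp)
    rw [h, Ideal.mem_bot] at h2
    exact hne _ (pow_ne_zero _ (X_ne_zero _)) h2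
  · intro h
    have h2 : algebraMap (PA k) (RR k) (X 2) ^ 2 ∈ JJ k ω :=
      Ideal.pow_mem_pow (Ideal.subset_span (by simp)) 2
    rw [h, Ideal.mem_bot] at h2
    exact hne _ (X_ne_zero _) (pow_eq_zero_iff (two_ne_zero) |>.mp h2)
  · intro h
    exact not_mem_main k ω h0 h1 (h (mem_adj k ω h0 h1))

end Pool.Agent.Results.MP_4583ef_ag.NotSubadditive
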